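import Pool.Agent.Helper82.EN.Basic

set_option autoImplicit false

/-! # ENCODING BY TM: module BLK -/

namespace Pool.Agent.Helper82.EN

open Finset

theorem BLK_ell_le (P : Pa) (hD : 1 ≤ P.D) (c : ℕ) : P.Lam ≤ P.ell c ∧ P.ell c ≤ P.ell 4 := by
  have h4 : P.ell 4 = 100000000 * (P.D * P.Lam) := by simp [Pa.ell]
  have h1 : P.Lam ≤ P.D * P.Lam := Nat.le_mul_of_pos_left _ hD
  rw [h4]
  unfold Pa.ell
  split_ifs <;> constructor <;> omega

theorem BLK_ell_mid (P : Pa) (c : ℕ) (hc : c ≤ 3) : P.ell c ≤ 1000000 * P.Lam := by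
  unfold Pa.ell
  split_ifs <;> omega

theorem BLK_dvd (P : Pa) (h : P.D ∣ P.Lam) (c : ℕ) : P.D ∣ P.ell c := by
  unfold Pa.ell
  split_ifs
  · exact h
  · exact h.mul_left _
  · exact h.mul_left _
  · exact h.mul_left _
  · exact (dvd_mul_right _ _).mul_left _

theorem BLK_cls_zero (P : Pa) (m : ℕ) : P.cls (P.nb * m) = 4 := by
  have h1 : P.nb * m = 3 * ((4 * P.D + 3) * m) := by
    unfold Pa.nb
    ring
  unfold Pa.cls
  rw [h1, if_pos (by omega), Nat.mul_div_cancel_left _ (by norm_num)]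
  unfold Pa.code
  rw [if_pos (by simp)]

theorem BLK_cls_mid (P : Pa) (m t : ℕ) (h0 : 0 < t) (h1 : t < P.nb) :
    P.cls (P.nb * m + t) ≤ 3 := by
  unfold Pa.cls
  split_ifs with h
  · have h2 : P.nb * m = 3 * ((4 * P.D + 3) * m) := by
      unfold Pa.nb
      ring
    have h3 : t < 3 * (4 * P.D + 3) := h1
    obtain ⟨s, hs⟩ : ∃ s, t = 3 * s := ⟨t / 3, by omega⟩
    have h4 : (P.nb * m + t) / 3 = (4 * P.D + 3) * m + s := by
      rw [h2, hs]
      omega
    have h5 : ((4 * P.D + 3) * m + s) % (4 * P.D + 3) = s := by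
      rw [Nat.mul_add_mod]
      exact Nat.mod_eq_of_lt (by omega)
    rw [h4]
    unfold Pa.code
    rw [h5, if_neg (by omega)]
    split_ifs
    · norm_num
    · norm_num
    · have := Nat.mod_lt (((4 * P.D + 3) * m + s) / (4 * P.D + 3) / 3 ^ (s - 2))
        (by norm_num : 0 < 3)
      omega
  · norm_num

theorem BLK_tau_add (P : Pa) (a b : ℕ) :
    P.tau (a + b) = P.tau a + ∑ j ∈ range b, P.len (a + j) := by
  unfold Pa.tau
  rw [Finset.sum_range_add]

theorem st_BLK : ST_BLK := by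
  intro P K Δ n hok hn
  have hD : 1 ≤ P.D := by
    have := hok.hd
    have := hok.hdD
    omega
  have hD5 : 5 ≤ P.D := by
    have := hok.hd
    have := hok.hdD
    omega
  refine ⟨by simp [Pa.S], by simp [Pa.S, Pa.tau], ?_, ?_, ?_, ?_⟩
  · intro k hk
    obtain ⟨m, rfl⟩ : ∃ m, k = m + 1 := ⟨k - 1, by omega⟩
    have e1 : P.S n (m + 1) = n + P.tau (P.nb * m) := by simp [Pa.S]
    have e2 : P.S n (m + 1 + 1) = n + P.tau (P.nb * m + P.nb) := by
      simp only [Pa.S]
      rw [if_neg (by omega)]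
      have : P.nb * (m + 1 + 1 - 1) = P.nb * m + P.nb := by
        rw [Nat.add_sub_cancel]
        ring
      rw [this]
    have hnb : 0 < P.nb := by
      unfold Pa.nb
      omega
    rw [e1, e2, BLK_tau_add]
    obtain ⟨b, hb⟩ : ∃ b, P.nb = b + 1 := ⟨P.nb - 1, by omega⟩
    have hb' : b + 1 = 3 * (4 * P.D + 3) := by rw [← hb]; rfl
    have e3 : ∑ j ∈ range P.nb, P.len (P.nb * m + j) =
        (∑ j ∈ range b, P.len (P.nb * m + (j + 1))) + P.ell 4 := by
      rw [hb, Finset.sum_range_succ', ← hb]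
      congr 1
      change P.ell (P.cls (P.nb * m)) = _
      rw [BLK_cls_zero]
    have e4 : ∑ j ∈ range b, P.len (P.nb * m + (j + 1)) ≤ b * (1000000 * P.Lam) := by
      calc ∑ j ∈ range b, P.len (P.nb * m + (j + 1)) ≤ ∑ j ∈ range b, 1000000 * P.Lam := by
            refine Finset.sum_le_sum fun j hj => ?_
            rw [Finset.mem_range] at hj
            exact BLK_ell_mid P _ (BLK_cls_mid P m (j + 1) (by omega) (by omega))
        _ = b * (1000000 * P.Lam) := by
            rw [Finset.sum_const, Finset.card_range, smul_eq_mul]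
    have e5 : b * (1000000 * P.Lam) ≤ P.ell 4 := by
      have h4 : P.ell 4 = 100000000 * (P.D * P.Lam) := by simp [Pa.ell]
      rw [h4]
      have h6 : b ≤ 100 * P.D := by omega
      calc b * (1000000 * P.Lam) ≤ (100 * P.D) * (1000000 * P.Lam) :=
            Nat.mul_le_mul_right _ h6
        _ = 100000000 * (P.D * P.Lam) := by ring
    rw [e3]
    constructor <;> omega
  · intro i
    exact ⟨(BLK_ell_le P hD _).1, BLK_dvd P hok.hdvd _, (BLK_ell_le P hD _).2⟩
  · intro m hm hne
    have key : m / 3 ^ P.D = (m - 1) / 3 ^ P.D := by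
      have hp : 0 < 3 ^ P.D := by positivity
      set T := 3 ^ P.D with hT
      have h1 := Nat.div_add_mod (m - 1) T
      have h2 := Nat.mod_lt (m - 1) hp
      have h3 : m = T * ((m - 1) / T) + ((m - 1) % T + 1) := by omega
      have h4 : (m - 1) % T + 1 < T := by omega
      have h5 : (T * ((m - 1) / T) + ((m - 1) % T + 1)) / T = (m - 1) / T := by
        rw [Nat.mul_add_div hp, Nat.div_eq_of_lt h4, Nat.add_zero]
      rw [← h3] at h5
      exact h5
    unfold Pa.sw
    funext i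
    unfold Pa.wd
    funext x
    have e : (i.1 + 1) * P.D + x.1 = P.D + (i.1 * P.D + x.1) := by ring
    simp only [Nat.add_sub_cancel, e, pow_add, ← Nat.div_div_eq_div_mul, key]
  · intro i
    rfl

end Pool.Agent.Helper82.EN
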